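import Pool.Agent.H44R2.Spl.Add

/-!
# `ℵ₁ ≤ add(Split(Ω, Λ)) ≤ cf(𝔲)`
-/

set_option autoImplicit false

namespace Pool.Agent.Results.MP_312f56_gt.AddLeCofU

open Cardinal Pool.Agent.H44R2.Spl

/-- The additivity number of `Split(Ω, Λ)` is at most the cofinality of the ultrafilter number
`𝔲`, and it is at least `ℵ₁`. -/
theorem result :
    -- a family of at most `cf(𝔲)` sets of reals with the property whose union fails it
    (∃ F : Set (Set ℝ), (∀ X ∈ F, Split X) ∧ ¬ Split (⋃₀ F) ∧ #F ≤ ultraNumber.ord.cof) ∧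
    -- the bounds for the additivity number
    ℵ₁ ≤ addSplit ∧ addSplit ≤ ultraNumber.ord.cof ∧
    -- in the usual range
    ultraNumber.ord.cof ≤ ultraNumber ∧ ultraNumber ≤ 𝔠 ∧
    -- the value of the additivity number when `cf(𝔲) = ℵ₁`
    (ultraNumber.ord.cof = ℵ₁ → addSplit = ℵ₁) ∧ (ultraNumber = ℵ₁ → addSplit = ℵ₁) := by
  have h4 : ultraNumber ≤ 𝔠 := by
    obtain ⟨𝒰, B, h1, h2, h3⟩ := exists_ultra
    rw [← h3]
    calc #B ≤ #(Set ℕ) := Cardinal.mk_set_le B
      _ = 𝔠 := by rw [Cardinal.mk_set]; simp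
  have h5 := Ordinal.cof_ord_le ultraNumber
  refine ⟨exists_family_split, aleph_one_le_addSplit, addSplit_le, h5, h4, ?_, ?_⟩
  · intro h
    exact le_antisymm (h ▸ addSplit_le) aleph_one_le_addSplit
  · intro h
    exact le_antisymm (addSplit_le.trans (h5.trans h.le)) aleph_one_le_addSplit

end Pool.Agent.Results.MP_312f56_gt.AddLeCofU
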